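import Mathlib
import Pool.Agent.H320R2.LD.MGF

/-!
# Kikuchi matrices: basic facts on the top of the spectrum
-/

set_option autoImplicit false
set_option linter.unusedVariables false
set_option maxHeartbeats 1000000

open MeasureTheory ProbabilityTheory Finset
open Pool.Agent.H320R2.LD (gam nsq nrm Lip)

namespace Pool.Agent.TH966.Kik

variable {n : ℕ}

/-- index set of the Kikuchi matrix -/
abbrev Ix (n ℓ : ℕ) := {K : Finset (Fin n) // K.card = ℓ}

/-- the Kikuchi matrix with signal `lam` and noise `Z` -/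
noncomputable def KM (r ℓ : ℕ) (lam : ℝ) (Z : Finset (Fin n) → ℝ) : Matrix (Ix n ℓ) (Ix n ℓ) ℝ :=
  Matrix.of fun I J =>
    if (symmDiff I.1 J.1).card = r then lam + Z (symmDiff I.1 J.1) else 0

/-- the top of the spectrum -/
noncomputable def top (r ℓ : ℕ) (lam : ℝ) (Z : Finset (Fin n) → ℝ) : ℝ :=
  sSup {t : ℝ | ∃ v : Ix n ℓ → ℝ, dotProduct v v = 1 ∧
    t = dotProduct v (Matrix.mulVec (KM r ℓ lam Z) v)}

/-- the weight of `Z S` in the quadratic form -/
noncomputable def rho (r ℓ : ℕ) (v : Ix n ℓ → ℝ) (S : Finset (Fin n)) : ℝ :=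
  ∑ I : Ix n ℓ, ∑ J : Ix n ℓ,
    if symmDiff I.1 J.1 = S ∧ S.card = r then v I * v J else 0

theorem quad_eq (r ℓ : ℕ) (lam : ℝ) (Z : Finset (Fin n) → ℝ) (v : Ix n ℓ → ℝ) :
    dotProduct v (Matrix.mulVec (KM r ℓ lam Z) v) = ∑ S, (lam + Z S) * rho r ℓ v S := by
  have h1 : dotProduct v (Matrix.mulVec (KM r ℓ lam Z) v) =
      ∑ I : Ix n ℓ, ∑ J : Ix n ℓ, if (symmDiff I.1 J.1).card = r then
        (lam + Z (symmDiff I.1 J.1)) * (v I * v J) else 0 := by
    simp only [dotProduct, Matrix.mulVec, KM, Matrix.of_apply]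
    refine Finset.sum_congr rfl fun I _ => ?_
    rw [Finset.mul_sum]
    refine Finset.sum_congr rfl fun J _ => ?_
    split_ifs <;> ring
  rw [h1]
  unfold rho
  simp only [Finset.mul_sum]
  rw [Finset.sum_comm]
  have h2 : ∑ S : Finset (Fin n), ∑ i : Ix n ℓ, ∑ i_1 : Ix n ℓ, (lam + Z S) *
      (if symmDiff i.1 i_1.1 = S ∧ S.card = r then v i * v i_1 else 0) =
      ∑ i : Ix n ℓ, ∑ i_1 : Ix n ℓ, ∑ S : Finset (Fin n), (lam + Z S) *
      (if symmDiff i.1 i_1.1 = S ∧ S.card = r then v i * v i_1 else 0) := by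
    rw [Finset.sum_comm]
    refine Finset.sum_congr rfl fun I _ => ?_
    rw [Finset.sum_comm]
  rw [h2, Finset.sum_comm]
  refine Finset.sum_congr rfl fun I _ => ?_
  refine Finset.sum_congr rfl fun J _ => ?_
  rw [Finset.sum_eq_single (symmDiff I.1 J.1)]
  · by_cases h : (symmDiff I.1 J.1).card = r
    · simp [h]
    · simp [h]
  · intro S _ hS
    rw [if_neg]
    · ring
    · rintro ⟨h, _⟩
      exact hS h.symm
  · intro h
    exact absurd (Finset.mem_univ _) h

/-- crude bound for the weights -/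
theorem rho_abs (r ℓ : ℕ) (v : Ix n ℓ → ℝ) (hv : dotProduct v v = 1) (S : Finset (Fin n)) :
    |rho r ℓ v S| ≤ 1 := by
  have hv' : ∑ I, v I ^ 2 = 1 := by
    rw [← hv]
    unfold dotProduct
    exact Finset.sum_congr rfl fun I _ => by ring
  have h1 : |rho r ℓ v S| ≤ ∑ I : Ix n ℓ, ∑ J : Ix n ℓ,
      ((if symmDiff I.1 J.1 = S then v I ^ 2 / 2 else 0) +
        (if symmDiff I.1 J.1 = S then v J ^ 2 / 2 else 0)) := by
    unfold rho
    refine (Finset.abs_sum_le_sum_abs _ _).trans (Finset.sum_le_sum fun I _ => ?_)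
    refine (Finset.abs_sum_le_sum_abs _ _).trans (Finset.sum_le_sum fun J _ => ?_)
    by_cases h : symmDiff I.1 J.1 = S
    · simp only [h, true_and, if_true]
      split_ifs
      · rw [abs_le]
        constructor <;> nlinarith [sq_nonneg (v I - v J), sq_nonneg (v I + v J)]
      · simp only [abs_zero]
        positivity
    · simp [h]
  refine h1.trans ?_
  simp only [Finset.sum_add_distrib]
  have h2 : ∀ I : Ix n ℓ, ∑ J : Ix n ℓ, (if symmDiff I.1 J.1 = S then v I ^ 2 / 2 else 0) ≤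
      v I ^ 2 / 2 := by
    intro I
    have h3 : ∀ J : Ix n ℓ, (if symmDiff I.1 J.1 = S then v I ^ 2 / 2 else 0) =
        if symmDiff I.1 S = J.1 then v I ^ 2 / 2 else 0 := by
      intro J
      have : symmDiff I.1 J.1 = S ↔ symmDiff I.1 S = J.1 := by
        constructor
        · rintro rfl; rw [symmDiff_symmDiff_cancel_left]
        · intro h; rw [← h, symmDiff_symmDiff_cancel_left]
      simp only [this]
    simp only [h3]
    by_cases h : (symmDiff I.1 S).card = ℓ
    · rw [Finset.sum_eq_single (⟨symmDiff I.1 S, h⟩ : Ix n ℓ)]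
      · simp
      · intro J _ hJ
        rw [if_neg]
        intro h'
        exact hJ (Subtype.ext h'.symm)
      · intro h'; exact absurd (Finset.mem_univ _) h'
    · rw [Finset.sum_eq_zero]
      · positivity
      · intro J _
        rw [if_neg]
        intro h'
        rw [h'] at h
        exact h J.2
  have h4 : ∑ I : Ix n ℓ, ∑ J : Ix n ℓ, (if symmDiff I.1 J.1 = S then v J ^ 2 / 2 else 0) =
      ∑ I : Ix n ℓ, ∑ J : Ix n ℓ, (if symmDiff I.1 J.1 = S then v I ^ 2 / 2 else 0) := by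
    rw [Finset.sum_comm]
    refine Finset.sum_congr rfl fun I _ => Finset.sum_congr rfl fun J _ => ?_
    rw [symmDiff_comm]
  rw [h4]
  have h5 : ∑ I : Ix n ℓ, ∑ J : Ix n ℓ, (if symmDiff I.1 J.1 = S then v I ^ 2 / 2 else 0) ≤
      ∑ I : Ix n ℓ, v I ^ 2 / 2 := Finset.sum_le_sum fun I _ => h2 I
  rw [← Finset.sum_div, hv'] at h5
  linarith

theorem bdd (r ℓ : ℕ) (lam : ℝ) (Z : Finset (Fin n) → ℝ) :
    BddAbove {t : ℝ | ∃ v : Ix n ℓ → ℝ, dotProduct v v = 1 ∧
      t = dotProduct v (Matrix.mulVec (KM r ℓ lam Z) v)} := by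
  refine ⟨∑ S, |lam + Z S|, ?_⟩
  rintro t ⟨v, hv, rfl⟩
  rw [quad_eq]
  refine (Finset.sum_le_sum fun S _ => ?_)
  calc (lam + Z S) * rho r ℓ v S ≤ |(lam + Z S) * rho r ℓ v S| := le_abs_self _
    _ = |lam + Z S| * |rho r ℓ v S| := abs_mul _ _
    _ ≤ |lam + Z S| * 1 := mul_le_mul_of_nonneg_left (rho_abs r ℓ v hv S) (abs_nonneg _)
    _ = |lam + Z S| := mul_one _

theorem exists_unit (ℓ : ℕ) (h : ℓ ≤ n) : ∃ v : Ix n ℓ → ℝ, dotProduct v v = 1 := by
  obtain ⟨K, hK⟩ : ∃ K : Finset (Fin n), K.card = ℓ := by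
    obtain ⟨K, _, hK⟩ := Finset.exists_subset_card_eq
      (s := (Finset.univ : Finset (Fin n))) (n := ℓ) (by simpa using h)
    exact ⟨K, hK⟩
  refine ⟨Pi.single (⟨K, hK⟩ : Ix n ℓ) 1, ?_⟩
  simp

theorem nonempty (r ℓ : ℕ) (h : ℓ ≤ n) (lam : ℝ) (Z : Finset (Fin n) → ℝ) :
    {t : ℝ | ∃ v : Ix n ℓ → ℝ, dotProduct v v = 1 ∧
      t = dotProduct v (Matrix.mulVec (KM r ℓ lam Z) v)}.Nonempty := by
  obtain ⟨v, hv⟩ := exists_unit ℓ h
  exact ⟨_, v, hv, rfl⟩

theorem le_top (r ℓ : ℕ) (lam : ℝ) (Z : Finset (Fin n) → ℝ) (v : Ix n ℓ → ℝ)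
    (hv : dotProduct v v = 1) : ∑ S, (lam + Z S) * rho r ℓ v S ≤ top r ℓ lam Z := by
  rw [← quad_eq]
  exact le_csSup (bdd r ℓ lam Z) ⟨v, hv, rfl⟩

theorem top_le (r ℓ : ℕ) (h : ℓ ≤ n) (lam : ℝ) (Z : Finset (Fin n) → ℝ) (B : ℝ)
    (hB : ∀ v : Ix n ℓ → ℝ, dotProduct v v = 1 → ∑ S, (lam + Z S) * rho r ℓ v S ≤ B) :
    top r ℓ lam Z ≤ B := by
  apply csSup_le (nonempty r ℓ h lam Z)
  rintro t ⟨v, hv, rfl⟩
  rw [quad_eq]
  exact hB v hv

/-- Lipschitz bound from a bound on the weights -/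
theorem lip_of (r ℓ : ℕ) (h : ℓ ≤ n) (lam : ℝ) (B : ℝ) (hB0 : 0 ≤ B)
    (hB : ∀ v : Ix n ℓ → ℝ, dotProduct v v = 1 → ∑ S, rho r ℓ v S ^ 2 ≤ B ^ 2) :
    Lip B (fun Z : Finset (Fin n) → ℝ => top r ℓ lam Z) := by
  have key : ∀ Z Z' : Finset (Fin n) → ℝ, top r ℓ lam Z ≤ top r ℓ lam Z' + B * nrm (Z - Z') := by
    intro Z Z'
    apply top_le r ℓ h
    intro v hv
    have h1 := le_top r ℓ lam Z' v hv
    have h2 : ∑ S, (lam + Z S) * rho r ℓ v S - ∑ S, (lam + Z' S) * rho r ℓ v S =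
        ∑ S, (Z - Z') S * rho r ℓ v S := by
      rw [← Finset.sum_sub_distrib]
      refine Finset.sum_congr rfl fun S _ => ?_
      rw [Pi.sub_apply]
      ring
    have h3 : (∑ S, (Z - Z') S * rho r ℓ v S) ^ 2 ≤ (B * nrm (Z - Z')) ^ 2 := by
      calc (∑ S, (Z - Z') S * rho r ℓ v S) ^ 2 ≤
          (∑ S, (Z - Z') S ^ 2) * ∑ S, rho r ℓ v S ^ 2 := Finset.sum_mul_sq_le_sq_mul_sq _ _ _
        _ ≤ (∑ S, (Z - Z') S ^ 2) * B ^ 2 :=
          mul_le_mul_of_nonneg_left (hB v hv) (Finset.sum_nonneg fun S _ => sq_nonneg _)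
        _ = (B * nrm (Z - Z')) ^ 2 := by
          rw [mul_pow, H320R2.LD.MGF.nrm_sq]
          unfold nsq
          ring
    have h4 := (abs_le_of_sq_le_sq' h3 (mul_nonneg hB0 (H320R2.LD.MGF.nrm_nonneg _))).2
    linarith
  intro Z Z'
  rw [abs_le]
  have h1 := key Z Z'
  have h2 := key Z' Z
  have h3 : nrm (Z' - Z) = nrm (Z - Z') := by
    unfold nrm nsq
    congr 1
    refine Finset.sum_congr rfl fun S _ => ?_
    simp only [Pi.sub_apply]
    ring
  rw [h3] at h2
  constructor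
  · linarith
  · linarith

/-- crude Lipschitz bound -/
theorem lip_crude (r ℓ : ℕ) (h : ℓ ≤ n) (lam : ℝ) :
    Lip (Real.sqrt (2 ^ n)) (fun Z : Finset (Fin n) → ℝ => top r ℓ lam Z) := by
  apply lip_of r ℓ h lam _ (Real.sqrt_nonneg _)
  intro v hv
  rw [Real.sq_sqrt (by positivity)]
  calc ∑ S, rho r ℓ v S ^ 2 ≤ ∑ _S : Finset (Fin n), (1 : ℝ) := by
        refine Finset.sum_le_sum fun S _ => ?_
        have := rho_abs r ℓ v hv S
        rw [← sq_abs]
        exact pow_le_one₀ (abs_nonneg _) this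
    _ = 2 ^ n := by simp

theorem integrable_top (r ℓ : ℕ) (h : ℓ ≤ n) (lam : ℝ) :
    Integrable (fun Z : Finset (Fin n) → ℝ => top r ℓ lam Z) (gam (Finset (Fin n))) :=
  (H320R2.LD.prove_MGF (Finset (Fin n)) _ _ (by positivity) (lip_crude r ℓ h lam)).1

theorem continuous_top (r ℓ : ℕ) (h : ℓ ≤ n) (lam : ℝ) :
    Continuous (fun Z : Finset (Fin n) → ℝ => top r ℓ lam Z) :=
  H320R2.LD.MGF.lip_continuous (Real.sqrt_nonneg _) (lip_crude r ℓ h lam)

/-! ### lower bound -/

theorem neg_mp (V : Type) [Fintype V] : MeasurePreserving (fun Z : V → ℝ => -Z) (gam V) (gam V) := by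
  refine ⟨measurable_neg, ?_⟩
  have h1 : (gaussianReal 0 1).map (fun x : ℝ => -x) = gaussianReal 0 1 := by
    rw [gaussianReal_map_neg]; simp
  have : ∀ _i : V, SigmaFinite ((gaussianReal 0 1).map (fun x : ℝ => -x)) := by
    intro _; rw [h1]; infer_instance
  have h2 := Measure.pi_map_pi (μ := fun _ : V => gaussianReal 0 1)
    (f := fun _ x => -x) (fun _ => measurable_neg.aemeasurable)
  unfold gam
  have h3 : (fun Z : V → ℝ => -Z) = fun (x : V → ℝ) i => -(x i) := rfl
  rw [h3, h2]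
  simp only [h1]

theorem eval_mp {V : Type} [Fintype V] (i : V) :
    MeasurePreserving (Function.eval i) (gam V) (gaussianReal 0 1) :=
  measurePreserving_eval (fun _ : V => gaussianReal 0 1) i

/-- first absolute moment -/
noncomputable def m1 : ℝ := ∫ x, |x| ∂(gaussianReal 0 1)

theorem integrable_abs : Integrable (fun x : ℝ => |x|) (gaussianReal 0 1) := by
  have := (memLp_id_gaussianReal (μ := 0) (v := 1) 1)
  have h2 : Integrable (fun x : ℝ => x) (gaussianReal 0 1) := by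
    have := memLp_one_iff_integrable.mp this
    exact this
  exact h2.abs

theorem m1_pos : 0 < m1 := by
  unfold m1
  rw [integral_pos_iff_support_of_nonneg (fun x => abs_nonneg x) integrable_abs]
  have : Function.support (fun x : ℝ => |x|) = {0}ᶜ := by
    ext x; simp
  rw [this]
  have h2 : NoAtoms (gaussianReal 0 1) := noAtoms_gaussianReal one_ne_zero
  have h3 : (gaussianReal 0 1) ({0}ᶜ) = 1 := by
    rw [prob_compl_eq_one_iff (measurableSet_singleton 0)]
    exact h2.measure_singleton 0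
  rw [h3]
  exact one_pos

theorem top_neg_add (r ℓ : ℕ) (I : Ix n ℓ) (T : Finset (Ix n ℓ)) (hT : T.Nonempty)
    (hr : 0 < r) (hT2 : ∀ J ∈ T, (symmDiff I.1 J.1).card = r) (Z : Finset (Fin n) → ℝ) :
    2 / Real.sqrt T.card * ∑ J ∈ T, |Z (symmDiff I.1 J.1)| ≤
      top r ℓ 0 Z + top r ℓ 0 (-Z) := by
  classical
  have hIT : I ∉ T := by
    intro h
    have := hT2 I h
    rw [symmDiff_self] at this
    simp at this
    omega
  have hc : (0 : ℝ) < T.card := by exact_mod_cast hT.card_pos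
  set a : ℝ := 1 / Real.sqrt T.card with ha
  have ha2 : a ^ 2 * T.card = 1 := by
    rw [ha, div_pow, one_pow, Real.sq_sqrt hc.le]
    field_simp
  set s : Ix n ℓ → ℝ := fun J => if 0 ≤ Z (symmDiff I.1 J.1) then 1 else -1 with hs
  have hs2 : ∀ J, s J ^ 2 = 1 := by intro J; simp only [hs]; split_ifs <;> norm_num
  have hsZ : ∀ J, s J * Z (symmDiff I.1 J.1) = |Z (symmDiff I.1 J.1)| := by
    intro J
    simp only [hs]
    split_ifs with h
    · rw [abs_of_nonneg h]; ring
    · push Not at h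
      rw [abs_of_neg h]; ring
  set w : Ix n ℓ → ℝ := fun J => if J ∈ T then a * s J else 0 with hw
  set u : Ix n ℓ → ℝ := Pi.single I 1 with hu
  have huu : dotProduct u u = 1 := by simp [hu]
  have huw : dotProduct u w = 0 := by simp [hu, hw, hIT]
  have hwu : dotProduct w u = 0 := by simp [hu, hw, hIT]
  have hww : dotProduct w w = 1 := by
    unfold dotProduct
    have : ∀ J, w J * w J = if J ∈ T then a ^ 2 else 0 := by
      intro J
      simp only [hw]
      split_ifs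
      · have := hs2 J
        calc a * s J * (a * s J) = a ^ 2 * s J ^ 2 := by ring
          _ = a ^ 2 := by rw [this]; ring
      · ring
    simp only [this]
    rw [Finset.sum_ite_mem, Finset.univ_inter, Finset.sum_const, nsmul_eq_mul, mul_comm]
    exact ha2
  set b : ℝ := 1 / Real.sqrt 2 with hb
  have hb2 : b ^ 2 = 1 / 2 := by
    rw [hb, div_pow, one_pow, Real.sq_sqrt (by norm_num)]
  set M := KM r ℓ 0 Z with hM
  have hMs : ∀ x y : Ix n ℓ → ℝ, dotProduct x (M.mulVec y) = dotProduct y (M.mulVec x) := by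
    intro x y
    have hsym : M.transpose = M := by
      ext A B
      simp only [hM, KM, Matrix.transpose_apply, Matrix.of_apply, symmDiff_comm A.1 B.1]
    rw [Matrix.dotProduct_mulVec, ← Matrix.mulVec_transpose, hsym, dotProduct_comm]
  have hneg : KM r ℓ 0 (-Z) = -M := by
    ext A B
    simp only [hM, KM, Matrix.of_apply, Matrix.neg_apply, Pi.neg_apply]
    split_ifs <;> ring
  have hp : dotProduct (b • (u + w)) (b • (u + w)) = 1 := by
    rw [smul_dotProduct, dotProduct_smul, add_dotProduct, dotProduct_add, dotProduct_add, huu, huw,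
      hwu, hww, smul_eq_mul, smul_eq_mul]
    linarith
  have hm : dotProduct (b • (u - w)) (b • (u - w)) = 1 := by
    rw [smul_dotProduct, dotProduct_smul, sub_dotProduct, dotProduct_sub, dotProduct_sub, huu, huw,
      hwu, hww, smul_eq_mul, smul_eq_mul]
    linarith
  have h1 := le_csSup (bdd r ℓ 0 Z) ⟨b • (u + w), hp, rfl⟩
  have h2 := le_csSup (bdd r ℓ 0 (-Z)) ⟨b • (u - w), hm, rfl⟩
  rw [hneg] at h2
  rw [← hM] at h1
  have e1 : dotProduct (b • (u + w)) (M.mulVec (b • (u + w))) =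
      1 / 2 * (dotProduct u (M.mulVec u) + 2 * dotProduct u (M.mulVec w) +
        dotProduct w (M.mulVec w)) := by
    rw [Matrix.mulVec_smul, smul_dotProduct, dotProduct_smul, Matrix.mulVec_add, add_dotProduct,
      dotProduct_add, dotProduct_add, hMs w u, smul_eq_mul, smul_eq_mul, ← mul_assoc, ← sq, hb2]
    ring
  have e2 : dotProduct (b • (u - w)) ((-M).mulVec (b • (u - w))) =
      -(1 / 2 * (dotProduct u (M.mulVec u) - 2 * dotProduct u (M.mulVec w) +
        dotProduct w (M.mulVec w))) := by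
    rw [Matrix.neg_mulVec, dotProduct_neg, Matrix.mulVec_smul, smul_dotProduct, dotProduct_smul,
      Matrix.mulVec_sub, sub_dotProduct,
      dotProduct_sub, dotProduct_sub, hMs w u, smul_eq_mul, smul_eq_mul, ← mul_assoc, ← sq, hb2]
    ring
  have e3 : dotProduct u (M.mulVec w) = a * ∑ J ∈ T, |Z (symmDiff I.1 J.1)| := by
    have : dotProduct u (M.mulVec w) = (M.mulVec w) I := by simp [hu]
    rw [this]
    unfold Matrix.mulVec dotProduct
    have h4 : ∀ J, M I J * w J = if J ∈ T then a * |Z (symmDiff I.1 J.1)| else 0 := by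
      intro J
      simp only [hw]
      split_ifs with h
      · have := hT2 J h
        simp only [hM, KM, Matrix.of_apply, this, if_true]
        rw [← hsZ J]
        ring
      · ring
    simp only [h4]
    rw [Finset.sum_ite_mem, Finset.univ_inter, Finset.mul_sum]
  have h5 : 2 * dotProduct u (M.mulVec w) ≤ top r ℓ 0 Z + top r ℓ 0 (-Z) := by
    have h6 : dotProduct (b • (u + w)) (M.mulVec (b • (u + w))) ≤ top r ℓ 0 Z := h1
    have h7 : dotProduct (b • (u - w)) ((-M).mulVec (b • (u - w))) ≤ top r ℓ 0 (-Z) := by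
      unfold top
      rw [hneg]
      exact h2
    rw [e1] at h6
    rw [e2] at h7
    linarith
  rw [e3] at h5
  refine le_trans (le_of_eq ?_) h5
  rw [ha]
  ring

theorem mean_lower (r ℓ : ℕ) (hℓ : ℓ ≤ n) (I : Ix n ℓ) (T : Finset (Ix n ℓ)) (hT : T.Nonempty)
    (hr : 0 < r) (hT2 : ∀ J ∈ T, (symmDiff I.1 J.1).card = r) :
    m1 * Real.sqrt T.card ≤ ∫ Z, top r ℓ 0 Z ∂(gam (Finset (Fin n))) := by
  have hc : (0 : ℝ) < T.card := by exact_mod_cast hT.card_pos
  have hi1 := integrable_top r ℓ hℓ 0 (n := n)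
  have hmp := neg_mp (Finset (Fin n))
  have hi2 : Integrable (fun Z : Finset (Fin n) → ℝ => top r ℓ 0 (-Z)) (gam (Finset (Fin n))) :=
    hmp.integrable_comp_of_integrable hi1
  have e1 : ∫ Z, top r ℓ 0 (-Z) ∂(gam (Finset (Fin n))) = ∫ Z, top r ℓ 0 Z ∂(gam (Finset (Fin n))) := by
    have := integral_map (μ := gam (Finset (Fin n))) (φ := fun Z : Finset (Fin n) → ℝ => -Z)
      hmp.measurable.aemeasurable (f := fun Z : Finset (Fin n) → ℝ => top r ℓ 0 Z)
      (by rw [hmp.map_eq]; exact hi1.aestronglyMeasurable)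
    rw [hmp.map_eq] at this
    exact this.symm
  have hiS : ∀ S : Finset (Fin n),
      Integrable (fun Z : Finset (Fin n) → ℝ => |Z S|) (gam (Finset (Fin n))) := fun S =>
    (eval_mp S).integrable_comp_of_integrable integrable_abs
  have e2 : ∀ S : Finset (Fin n), ∫ Z, |Z S| ∂(gam (Finset (Fin n))) = m1 := by
    intro S
    have hS := eval_mp (V := Finset (Fin n)) S
    have := integral_map (μ := gam (Finset (Fin n))) (φ := Function.eval S)
      hS.measurable.aemeasurable (f := fun x : ℝ => |x|)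
      (by rw [hS.map_eq]; exact integrable_abs.aestronglyMeasurable)
    rw [hS.map_eq] at this
    exact this.symm
  have h1 : ∫ Z, 2 / Real.sqrt T.card * ∑ J ∈ T, |Z (symmDiff I.1 J.1)| ∂(gam (Finset (Fin n))) ≤
      ∫ Z, (top r ℓ 0 Z + top r ℓ 0 (-Z)) ∂(gam (Finset (Fin n))) := by
    apply integral_mono
    · exact (integrable_finsetSum _ fun J _ => hiS _).const_mul _
    · exact hi1.add hi2
    · intro Z
      exact top_neg_add r ℓ I T hT hr hT2 Z
  rw [integral_add hi1 hi2, e1, integral_const_mul, integral_finsetSum _ (fun J _ => hiS _)] at h1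
  simp only [e2] at h1
  rw [Finset.sum_const, nsmul_eq_mul] at h1
  have h2 : 2 / Real.sqrt T.card * (T.card * m1) = 2 * (m1 * Real.sqrt T.card) := by
    have h3 : Real.sqrt (T.card : ℝ) ^ 2 = T.card := Real.sq_sqrt hc.le
    have h4 : 0 < Real.sqrt (T.card : ℝ) := Real.sqrt_pos.mpr hc
    field_simp
    rw [h3]
    try ring
  rw [h2] at h1
  linarith

end Pool.Agent.TH966.Kik
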