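import Mathlib
import Pool.Agent.TH966.Kik.Basic

/-!
# The Lipschitz constant of the top of the spectrum does not depend on `n`
-/

set_option autoImplicit false
set_option linter.unusedVariables false
set_option maxHeartbeats 1000000

open MeasureTheory ProbabilityTheory Finset
open Pool.Agent.H320R2.LD (gam nsq nrm Lip)

namespace Pool.Agent.TH966.Kik

variable {n : ℕ}

/-- weight of the index sets containing `A` -/
noncomputable def pw (ℓ : ℕ) (v : Ix n ℓ → ℝ) (A : Finset (Fin n)) : ℝ :=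
  ∑ I : Ix n ℓ, if A ⊆ I.1 then v I ^ 2 else 0

theorem pw_nonneg (ℓ : ℕ) (v : Ix n ℓ → ℝ) (A : Finset (Fin n)) : 0 ≤ pw ℓ v A :=
  Finset.sum_nonneg fun I _ => by split_ifs <;> positivity

theorem pw_sum (k ℓ : ℕ) (v : Ix n ℓ → ℝ) (hv : dotProduct v v = 1) :
    ∑ A ∈ powersetCard k (univ : Finset (Fin n)), pw ℓ v A = (ℓ.choose k : ℝ) := by
  unfold pw
  rw [Finset.sum_comm]
  have h1 : ∀ I : Ix n ℓ, ∑ A ∈ powersetCard k (univ : Finset (Fin n)),
      (if A ⊆ I.1 then v I ^ 2 else 0) = (ℓ.choose k : ℝ) * (v I * v I) := by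
    intro I
    rw [← Finset.sum_filter, Finset.sum_const]
    have : (powersetCard k (univ : Finset (Fin n))).filter (fun A => A ⊆ I.1) =
        powersetCard k I.1 := by
      ext A
      simp only [mem_filter, mem_powersetCard, subset_univ, true_and]
      tauto
    rw [this, card_powersetCard, I.2, nsmul_eq_mul]
    ring
  simp only [h1]
  rw [← Finset.mul_sum]
  have : ∑ I, v I * v I = 1 := hv
  rw [this, mul_one]

theorem card_sdiff_symm (ℓ : ℕ) (I J : Ix n ℓ) : (I.1 \ J.1).card = (J.1 \ I.1).card := by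
  have h1 := Finset.card_sdiff_add_card_inter I.1 J.1
  have h2 := Finset.card_sdiff_add_card_inter J.1 I.1
  rw [inter_comm J.1 I.1] at h2
  rw [I.2] at h1
  rw [J.2] at h2
  omega

theorem card_symm (ℓ : ℕ) (I J : Ix n ℓ) : (symmDiff I.1 J.1).card = 2 * (I.1 \ J.1).card := by
  have h1 : symmDiff I.1 J.1 = (I.1 \ J.1) ∪ (J.1 \ I.1) := rfl
  rw [h1, card_union_of_disjoint (disjoint_sdiff_sdiff), ← card_sdiff_symm]
  ring

/-- the part of the weight with `I \ J = A` -/
noncomputable def qq (ℓ : ℕ) (v : Ix n ℓ → ℝ) (S A : Finset (Fin n)) : ℝ :=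
  ∑ I : Ix n ℓ, ∑ J : Ix n ℓ, if symmDiff I.1 J.1 = S ∧ I.1 \ J.1 = A then v I * v J else 0

theorem rho_eq_qq (k ℓ : ℕ) (v : Ix n ℓ → ℝ) (S : Finset (Fin n)) (hS : S.card = 2 * k) :
    rho (2 * k) ℓ v S = ∑ A ∈ powersetCard k S, qq ℓ v S A := by
  unfold rho qq
  conv_rhs => rw [Finset.sum_comm]
  refine Finset.sum_congr rfl fun I _ => ?_
  conv_rhs => rw [Finset.sum_comm]
  refine Finset.sum_congr rfl fun J _ => ?_
  by_cases h : symmDiff I.1 J.1 = S
  · have hc := card_symm ℓ I J
    rw [h, hS] at hc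
    have hm : I.1 \ J.1 ∈ powersetCard k S := by
      rw [mem_powersetCard]
      refine ⟨?_, by omega⟩
      rw [← h]
      exact subset_union_left
    simp only [h, hS, true_and, and_self, if_true]
    rw [Finset.sum_ite_eq, if_pos hm]
  · simp [h]

theorem qq_sq_le (ℓ : ℕ) (v : Ix n ℓ → ℝ) (S A : Finset (Fin n)) :
    qq ℓ v S A ^ 2 ≤ pw ℓ v A * pw ℓ v (S \ A) := by
  have e1 : qq ℓ v S A = ∑ p : Ix n ℓ × Ix n ℓ,
      (if symmDiff p.1.1 p.2.1 = S ∧ p.1.1 \ p.2.1 = A then v p.1 else 0) *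
      (if symmDiff p.1.1 p.2.1 = S ∧ p.1.1 \ p.2.1 = A then v p.2 else 0) := by
    unfold qq
    rw [Fintype.sum_prod_type]
    refine Finset.sum_congr rfl fun I _ => Finset.sum_congr rfl fun J _ => ?_
    split_ifs <;> simp
  have h1 : ∑ p : Ix n ℓ × Ix n ℓ,
      (if symmDiff p.1.1 p.2.1 = S ∧ p.1.1 \ p.2.1 = A then v p.1 else 0) ^ 2 ≤ pw ℓ v A := by
    rw [Fintype.sum_prod_type]
    unfold pw
    refine Finset.sum_le_sum fun I _ => ?_
    by_cases hA : A ⊆ I.1
    · rw [if_pos hA]
      by_cases hJ : (symmDiff I.1 S).card = ℓ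
      · rw [Finset.sum_eq_single (⟨symmDiff I.1 S, hJ⟩ : Ix n ℓ)]
        · split_ifs
          · exact le_refl _
          · simp only [ne_eq, OfNat.ofNat_ne_zero, not_false_eq_true, zero_pow]
            positivity
        · intro J _ hJ'
          rw [if_neg]
          · simp
          rintro ⟨h, _⟩
          apply hJ'
          apply Subtype.ext
          simp only [← h, symmDiff_symmDiff_cancel_left]
        · intro h; exact absurd (Finset.mem_univ _) h
      · rw [Finset.sum_eq_zero]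
        · positivity
        · intro J _
          rw [if_neg]
          · simp
          rintro ⟨h, _⟩
          apply hJ
          rw [← h, symmDiff_symmDiff_cancel_left]
          exact J.2
    · rw [if_neg hA]
      apply le_of_eq
      apply Finset.sum_eq_zero
      intro J _
      rw [if_neg]
      · simp
      rintro ⟨_, h⟩
      apply hA
      rw [← h]
      exact sdiff_subset
  have h2 : ∑ p : Ix n ℓ × Ix n ℓ,
      (if symmDiff p.1.1 p.2.1 = S ∧ p.1.1 \ p.2.1 = A then v p.2 else 0) ^ 2 ≤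
      pw ℓ v (S \ A) := by
    rw [Fintype.sum_prod_type_right]
    unfold pw
    refine Finset.sum_le_sum fun J _ => ?_
    by_cases hA : S \ A ⊆ J.1
    · rw [if_pos hA]
      by_cases hI : (symmDiff S J.1).card = ℓ
      · rw [Finset.sum_eq_single (⟨symmDiff S J.1, hI⟩ : Ix n ℓ)]
        · split_ifs
          · exact le_refl _
          · simp only [ne_eq, OfNat.ofNat_ne_zero, not_false_eq_true, zero_pow]
            positivity
        · intro I _ hI'
          rw [if_neg]
          · simp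
          rintro ⟨h, _⟩
          apply hI'
          apply Subtype.ext
          simp only [← h, symmDiff_symmDiff_cancel_right]
        · intro h; exact absurd (Finset.mem_univ _) h
      · rw [Finset.sum_eq_zero]
        · positivity
        · intro I _
          rw [if_neg]
          · simp
          rintro ⟨h, _⟩
          apply hI
          rw [← h, symmDiff_symmDiff_cancel_right]
          exact I.2
    · rw [if_neg hA]
      apply le_of_eq
      apply Finset.sum_eq_zero
      intro I _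
      rw [if_neg]
      · simp
      rintro ⟨h1, h2⟩
      apply hA
      rw [← h1, ← h2]
      intro x hx
      simp only [mem_sdiff, Finset.mem_symmDiff] at hx
      tauto
  rw [e1]
  calc _ ≤ _ := Finset.sum_mul_sq_le_sq_mul_sq _ _ _
    _ ≤ _ := mul_le_mul h1 h2 (Finset.sum_nonneg fun _ _ => sq_nonneg _) (pw_nonneg _ _ _)

theorem rho_sq_le (k ℓ : ℕ) (v : Ix n ℓ → ℝ) (S : Finset (Fin n)) :
    rho (2 * k) ℓ v S ^ 2 ≤
      ((2 * k).choose k : ℝ) * ∑ A ∈ powersetCard k S, pw ℓ v A * pw ℓ v (S \ A) := by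
  by_cases hS : S.card = 2 * k
  · rw [rho_eq_qq k ℓ v S hS]
    calc (∑ A ∈ powersetCard k S, qq ℓ v S A) ^ 2 ≤
        ((powersetCard k S).card : ℝ) * ∑ A ∈ powersetCard k S, qq ℓ v S A ^ 2 := sq_sum_le_card_mul_sum_sq
      _ ≤ _ := by
        rw [card_powersetCard, hS]
        exact mul_le_mul_of_nonneg_left (Finset.sum_le_sum fun A _ => qq_sq_le ℓ v S A)
          (Nat.cast_nonneg _)
  · have : rho (2 * k) ℓ v S = 0 := by
      unfold rho
      simp [hS]
    rw [this]
    have h0 : 0 ≤ ∑ A ∈ powersetCard k S, pw ℓ v A * pw ℓ v (S \ A) :=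
      Finset.sum_nonneg fun A _ => mul_nonneg (pw_nonneg _ _ _) (pw_nonneg _ _ _)
    have h1 := mul_nonneg (Nat.cast_nonneg (α := ℝ) ((2 * k).choose k)) h0
    simpa using h1

theorem rho_sq_sum (k ℓ : ℕ) (v : Ix n ℓ → ℝ) (hv : dotProduct v v = 1) :
    ∑ S, rho (2 * k) ℓ v S ^ 2 ≤ ((2 * k).choose k : ℝ) * (ℓ.choose k : ℝ) ^ 2 := by
  have h0 : ∀ S : Finset (Fin n), rho (2 * k) ℓ v S ^ 2 ≤ if S.card = 2 * k then
      ((2 * k).choose k : ℝ) * ∑ A ∈ powersetCard k S, pw ℓ v A * pw ℓ v (S \ A) else 0 := by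
    intro S
    split_ifs with hS
    · exact rho_sq_le k ℓ v S
    · have : rho (2 * k) ℓ v S = 0 := by
        unfold rho
        simp [hS]
      rw [this]; simp
  refine (Finset.sum_le_sum fun S _ => h0 S).trans ?_
  rw [← Finset.sum_filter, ← Finset.mul_sum]
  apply mul_le_mul_of_nonneg_left _ (Nat.cast_nonneg _)
  rw [sq, ← pw_sum k ℓ v hv, Finset.sum_mul_sum, ← Finset.sum_product', Finset.sum_sigma']
  have hinj : Set.InjOn (fun p : (_ : Finset (Fin n)) × Finset (Fin n) => (p.2, p.1 \ p.2))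
      ((univ.filter (fun S : Finset (Fin n) => S.card = 2 * k)).sigma
        (fun S => powersetCard k S) : Finset ((_ : Finset (Fin n)) × Finset (Fin n))) := by
    rintro ⟨S, A⟩ hp ⟨S', A'⟩ hp' h
    simp only [coe_sigma, Set.mem_sigma_iff, mem_coe, mem_filter, mem_univ, true_and,
      mem_powersetCard] at hp hp'
    simp only [Prod.mk.injEq] at h
    obtain ⟨h1, h2⟩ := h
    subst h1
    have : S = S' := by
      rw [← Finset.union_sdiff_of_subset hp.2.1, h2, Finset.union_sdiff_of_subset hp'.2.1]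
    subst this
    rfl
  rw [← Finset.sum_image (f := fun q : Finset (Fin n) × Finset (Fin n) =>
    pw ℓ v q.1 * pw ℓ v q.2) hinj]
  apply Finset.sum_le_sum_of_subset_of_nonneg
  · intro q hq
    simp only [mem_image, mem_sigma, mem_filter, mem_univ, true_and, mem_powersetCard] at hq
    obtain ⟨⟨S, A⟩, ⟨h1, h2, h3⟩, rfl⟩ := hq
    simp only [mem_product, mem_powersetCard, subset_univ, true_and]
    refine ⟨h3, ?_⟩
    simp only at h1 h2 h3
    rw [Finset.card_sdiff_of_subset h2]
    omega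
  · intro q _ _
    exact mul_nonneg (pw_nonneg _ _ _) (pw_nonneg _ _ _)

theorem lip_top (k ℓ : ℕ) (h : ℓ ≤ n) (lam : ℝ) :
    Lip (Real.sqrt ((2 * k).choose k : ℝ) * (ℓ.choose k : ℝ))
      (fun Z : Finset (Fin n) → ℝ => top (2 * k) ℓ lam Z) := by
  apply lip_of (2 * k) ℓ h lam _ (by positivity)
  intro v hv
  rw [mul_pow, Real.sq_sqrt (Nat.cast_nonneg _)]
  exact rho_sq_sum k ℓ v hv

end Pool.Agent.TH966.Kik
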