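import Mathlib
import Pool.Agent.H320R2.LD.Defs
import Pool.Agent.Helper954.Hopf.AF

/-!
# Translations of the standard Gaussian measure
-/

set_option autoImplicit false
set_option linter.unusedVariables false
set_option maxHeartbeats 1000000

open MeasureTheory ProbabilityTheory Finset
open scoped ENNReal
open Pool.Agent.H320R2.LD (gam nsq nrm Lip)

namespace Pool.Agent.TH966.Kik

/-- the product density -/
noncomputable def dens {V : Type} [Fintype V] (x : V → ℝ) : ℝ := ∏ i, gaussianPDFReal 0 1 (x i)

theorem gam_dens (V : Type) [Fintype V] :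
    gam V = (volume : Measure (V → ℝ)).withDensity (fun x => ENNReal.ofReal (dens x)) := by
  have h0 : gaussianReal 0 1 = (volume : Measure ℝ).withDensity (gaussianPDF 0 1) :=
    gaussianReal_of_var_ne_zero 0 one_ne_zero
  have : SigmaFinite ((volume : Measure ℝ).withDensity (gaussianPDF 0 1)) := by
    rw [← h0]; infer_instance
  unfold gam
  rw [show (fun _ : V => gaussianReal 0 1) =
    fun i : V => (volume : Measure ℝ).withDensity ((fun _ : V => gaussianPDF 0 1) i) from
      funext fun _ => h0]
  have h1 := Pool.Agent.Helper954.Hopf.AF.AF.pi_withDensity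
    (fun _ : V => gaussianPDF 0 1) (fun _ => measurable_gaussianPDF 0 1)
  rw [h1]
  have h2 : (fun y : V → ℝ => ∏ i, gaussianPDF 0 1 (y i)) = fun x => ENNReal.ofReal (dens x) := by
    funext x
    unfold dens
    rw [ENNReal.ofReal_prod_of_nonneg (fun i _ => gaussianPDFReal_nonneg 0 1 (x i))]
    rfl
  rw [h2]
  rfl

theorem dens_nonneg {V : Type} [Fintype V] (x : V → ℝ) : 0 ≤ dens x :=
  Finset.prod_nonneg fun i _ => gaussianPDFReal_nonneg 0 1 (x i)

theorem dens_meas {V : Type} [Fintype V] : Measurable (dens : (V → ℝ) → ℝ) := by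
  unfold dens
  exact Finset.measurable_prod _ fun i _ =>
    (measurable_gaussianPDFReal 0 1).comp (measurable_pi_apply i)

theorem int_gam (V : Type) [Fintype V] (g : (V → ℝ) → ℝ) :
    ∫ Z, g Z ∂(gam V) = ∫ x, dens x * g x := by
  rw [gam_dens, integral_withDensity_eq_integral_toReal_smul (dens_meas.ennreal_ofReal)
    (Filter.Eventually.of_forall fun x => ENNReal.ofReal_lt_top)]
  refine integral_congr_ae (Filter.Eventually.of_forall fun x => ?_)
  simp only [ENNReal.toReal_ofReal (dens_nonneg x), smul_eq_mul]

/-- the exponential weight of the translation by `a` -/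
noncomputable def ew {V : Type} [Fintype V] (a : V → ℝ) (Z : V → ℝ) : ℝ :=
  Real.exp (∑ i, (a i * Z i - a i ^ 2 / 2))

theorem dens_shift {V : Type} [Fintype V] (a x : V → ℝ) : dens (x - a) = dens x * ew a x := by
  unfold dens ew
  rw [Real.exp_sum, ← Finset.prod_mul_distrib]
  refine Finset.prod_congr rfl fun i _ => ?_
  simp only [gaussianPDFReal, Pi.sub_apply, NNReal.coe_one, sub_zero, mul_one]
  rw [mul_assoc, ← Real.exp_add]
  congr 2
  ring

/-- translation formula -/
theorem shift {V : Type} [Fintype V] (a : V → ℝ) (f : (V → ℝ) → ℝ) :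
    ∫ Z, f (Z + a) ∂(gam V) = ∫ Z, f Z * ew a Z ∂(gam V) := by
  rw [int_gam, int_gam]
  have h1 := integral_add_right_eq_self (μ := (volume : Measure (V → ℝ)))
    (fun x : V → ℝ => dens (x - a) * f x) a
  simp only [add_sub_cancel_right] at h1
  rw [h1]
  refine integral_congr_ae (Filter.Eventually.of_forall fun x => ?_)
  simp only [dens_shift]
  ring

theorem ew_mul {V : Type} [Fintype V] (a b Z : V → ℝ) :
    ew a Z * ew b Z = Real.exp (∑ i, a i * b i) * ew (a + b) Z := by
  unfold ew
  rw [← Real.exp_add, ← Real.exp_add, ← Finset.sum_add_distrib, ← Finset.sum_add_distrib]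
  congr 1
  refine Finset.sum_congr rfl fun i _ => ?_
  simp only [Pi.add_apply]
  ring

theorem int_ew {V : Type} [Fintype V] (a : V → ℝ) : ∫ Z, ew a Z ∂(gam V) = 1 := by
  have h := shift a (fun _ => (1 : ℝ))
  simp only [one_mul] at h
  rw [← h]
  have : IsProbabilityMeasure (gam V) := by unfold gam; infer_instance
  simp

theorem integrable_ew {V : Type} [Fintype V] (a : V → ℝ) : Integrable (ew a) (gam V) := by
  by_contra h
  have h1 := int_ew a
  rw [integral_undef h] at h1
  exact zero_ne_one h1

theorem int_ew_mul {V : Type} [Fintype V] (a b : V → ℝ) :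
    ∫ Z, ew a Z * ew b Z ∂(gam V) = Real.exp (∑ i, a i * b i) := by
  simp only [ew_mul]
  rw [integral_const_mul, int_ew, mul_one]

theorem integrable_ew_mul {V : Type} [Fintype V] (a b : V → ℝ) :
    Integrable (fun Z => ew a Z * ew b Z) (gam V) := by
  simp only [ew_mul]
  exact (integrable_ew _).const_mul _

end Pool.Agent.TH966.Kik
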