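import Mathlib
import Pool.Agent.TH966.Kik.Lip
import Pool.Agent.TH966.Kik.Shift
import Pool.Agent.H497R3.Erg2

/-!
# Gauge symmetry and the second moment of the likelihood ratio, `r = 2`
-/

set_option autoImplicit false
set_option linter.unusedVariables false
set_option maxHeartbeats 1000000

open MeasureTheory ProbabilityTheory Finset
open Pool.Agent.H320R2.LD (gam nsq nrm Lip)
open Pool.Agent.H497R3.Erg (Ex bw yv)

namespace Pool.Agent.TH966.Kik

variable {n : ℕ}

/-- the sign of a bit -/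
noncomputable def sg (b : Bool) : ℝ := 2 * yv (1 / 2) b

theorem sg_sq (b : Bool) : sg b ^ 2 = 1 := by
  cases b <;> norm_num [sg, yv]

/-- product of signs -/
noncomputable def chi (x : Fin n → Bool) (S : Finset (Fin n)) : ℝ := ∏ i ∈ S, sg (x i)

theorem chi_sq (x : Fin n → Bool) (S : Finset (Fin n)) : chi x S ^ 2 = 1 := by
  unfold chi
  rw [← Finset.prod_pow]
  exact Finset.prod_eq_one fun i _ => sg_sq _

theorem chi_mul_self (x : Fin n → Bool) (S : Finset (Fin n)) : chi x S * chi x S = 1 := by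
  rw [← sq, chi_sq]

theorem chi_symm (x : Fin n → Bool) (I J : Finset (Fin n)) :
    chi x (symmDiff I J) = chi x I * chi x J := by
  have h1 : chi x I = chi x (I \ J) * chi x (I ∩ J) := by
    unfold chi
    rw [← Finset.prod_union (Finset.disjoint_sdiff_inter I J), Finset.sdiff_union_inter]
  have h2 : chi x J = chi x (J \ I) * chi x (I ∩ J) := by
    unfold chi
    rw [Finset.inter_comm I J, ← Finset.prod_union (Finset.disjoint_sdiff_inter J I),
      Finset.sdiff_union_inter]
  have h3 : chi x (symmDiff I J) = chi x (I \ J) * chi x (J \ I) := by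
    unfold chi
    rw [← Finset.prod_union disjoint_sdiff_sdiff]
    rfl
  rw [h1, h2, h3]
  have := chi_mul_self x (I ∩ J)
  calc chi x (I \ J) * chi x (J \ I) = chi x (I \ J) * chi x (J \ I) * 1 := by ring
    _ = _ := by rw [← this]; ring

/-- the shift -/
noncomputable def aa (r : ℕ) (lam : ℝ) (x : Fin n → Bool) (S : Finset (Fin n)) : ℝ :=
  if S.card = r then lam * chi x S else 0

theorem rho_chi (r ℓ : ℕ) (x : Fin n → Bool) (v : Ix n ℓ → ℝ) (S : Finset (Fin n)) :
    rho r ℓ (fun I => chi x I.1 * v I) S = chi x S * rho r ℓ v S := by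
  unfold rho
  rw [Finset.mul_sum]
  refine Finset.sum_congr rfl fun I _ => ?_
  rw [Finset.mul_sum]
  refine Finset.sum_congr rfl fun J _ => ?_
  split_ifs with h
  · rw [← h.1, chi_symm]
    ring
  · ring

theorem quad_chi (r ℓ : ℕ) (lam : ℝ) (x : Fin n → Bool) (Z : Finset (Fin n) → ℝ)
    (v : Ix n ℓ → ℝ) :
    ∑ S, (0 + (Z + aa r lam x) S) * rho r ℓ (fun I => chi x I.1 * v I) S =
      ∑ S, (lam + chi x S * Z S) * rho r ℓ v S := by
  refine Finset.sum_congr rfl fun S _ => ?_
  rw [rho_chi]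
  by_cases h : S.card = r
  · simp only [Pi.add_apply, aa, h, if_true]
    have := chi_mul_self x S
    calc (0 + (Z S + lam * chi x S)) * (chi x S * rho r ℓ v S) =
        (chi x S * Z S + lam * (chi x S * chi x S)) * rho r ℓ v S := by ring
      _ = _ := by rw [this]; ring
  · have : rho r ℓ v S = 0 := by
      unfold rho
      simp [h]
    rw [this]; ring

theorem top_gauge (r ℓ : ℕ) (hℓ : ℓ ≤ n) (lam : ℝ) (x : Fin n → Bool)
    (Z : Finset (Fin n) → ℝ) :
    top r ℓ lam (fun S => chi x S * Z S) = top r ℓ 0 (Z + aa r lam x) := by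
  have hd : ∀ v : Ix n ℓ → ℝ, dotProduct v v = 1 →
      dotProduct (fun I : Ix n ℓ => chi x I.1 * v I) (fun I => chi x I.1 * v I) = 1 := by
    intro v hv
    rw [← hv]
    unfold dotProduct
    refine Finset.sum_congr rfl fun I _ => ?_
    calc chi x I.1 * v I * (chi x I.1 * v I) = (chi x I.1 * chi x I.1) * (v I * v I) := by ring
      _ = _ := by rw [chi_mul_self]; ring
  apply le_antisymm
  · apply top_le r ℓ hℓ
    intro v hv
    rw [← quad_chi]
    exact le_top r ℓ 0 _ _ (hd v hv)
  · apply top_le r ℓ hℓ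
    intro v hv
    have h1 : v = fun I => chi x I.1 * (fun I : Ix n ℓ => chi x I.1 * v I) I := by
      funext I
      simp only
      rw [← mul_assoc, chi_mul_self, one_mul]
    rw [h1, quad_chi]
    exact le_top r ℓ lam _ _ (hd v hv)

theorem sign_mp (V : Type) [Fintype V] (c : V → ℝ) (hc : ∀ i, c i ^ 2 = 1) :
    MeasurePreserving (fun Z : V → ℝ => fun i => c i * Z i) (gam V) (gam V) := by
  refine ⟨by fun_prop, ?_⟩
  have h1 : ∀ i, (gaussianReal 0 1).map (fun x : ℝ => c i * x) = gaussianReal 0 1 := by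
    intro i
    rw [gaussianReal_map_const_mul]
    congr 1
    · simp
    · rw [mul_one]
      apply NNReal.coe_injective
      simp [hc i]
  have : ∀ i : V, SigmaFinite ((gaussianReal 0 1).map (fun x : ℝ => c i * x)) := by
    intro i; rw [h1]; infer_instance
  have h2 := Measure.pi_map_pi (μ := fun _ : V => gaussianReal 0 1)
    (f := fun i x => c i * x) (fun i => (measurable_const_mul (c i)).aemeasurable)
  unfold gam
  rw [h2]
  simp only [h1]

theorem mean_gauge (r ℓ : ℕ) (hℓ : ℓ ≤ n) (lam : ℝ) (x : Fin n → Bool) :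
    ∫ Z, top r ℓ lam Z ∂(gam (Finset (Fin n))) =
      ∫ Z, top r ℓ 0 Z * ew (aa r lam x) Z ∂(gam (Finset (Fin n))) := by
  rw [← shift (aa r lam x) (fun Z => top r ℓ 0 Z)]
  simp only [← top_gauge r ℓ hℓ]
  have hmp := sign_mp (Finset (Fin n)) (chi x) (chi_sq x)
  have := integral_map (μ := gam (Finset (Fin n)))
    (φ := fun Z : Finset (Fin n) → ℝ => fun S => chi x S * Z S)
    hmp.measurable.aemeasurable (f := fun Z : Finset (Fin n) → ℝ => top r ℓ lam Z)
    (by rw [hmp.map_eq]; exact (integrable_top r ℓ hℓ lam).aestronglyMeasurable)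
  rw [hmp.map_eq] at this
  exact this

/-- weights of the bits -/
noncomputable def ww (x : Fin n → Bool) : ℝ := ∏ i, bw (1 / 2) (x i)

theorem ww_nonneg (x : Fin n → Bool) : 0 ≤ ww x :=
  Finset.prod_nonneg fun i _ => H497R3.Erg.bw_nonneg (by norm_num) (by norm_num) _

theorem ww_sum : ∑ x : Fin n → Bool, ww x = 1 := by
  have := H497R3.Erg.Ex_const (I := Fin n) (W := bw (1 / 2)) (H497R3.Erg.bw_sum _) 1
  unfold Ex at this
  simpa [ww] using this

/-- the likelihood ratio -/
noncomputable def LR (r : ℕ) (lam : ℝ) (Z : Finset (Fin n) → ℝ) : ℝ :=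
  ∑ x : Fin n → Bool, ww x * ew (aa r lam x) Z

theorem LR_int (r : ℕ) (lam : ℝ) : ∫ Z, LR r lam Z ∂(gam (Finset (Fin n))) = 1 := by
  unfold LR
  rw [integral_finsetSum _ (fun x _ => (integrable_ew _).const_mul _)]
  simp only [integral_const_mul, int_ew, mul_one]
  exact ww_sum

theorem LR_integrable (r : ℕ) (lam : ℝ) : Integrable (LR r lam) (gam (Finset (Fin n))) :=
  integrable_finsetSum _ (fun x _ => (integrable_ew _).const_mul _)

theorem LR_sq (r : ℕ) (lam : ℝ) (Z : Finset (Fin n) → ℝ) : LR r lam Z ^ 2 =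
    ∑ x : Fin n → Bool, ∑ y : Fin n → Bool,
      ww x * ww y * (ew (aa r lam x) Z * ew (aa r lam y) Z) := by
  unfold LR
  rw [sq, Finset.sum_mul_sum]
  refine Finset.sum_congr rfl fun x _ => Finset.sum_congr rfl fun y _ => ?_
  ring

theorem LR_sq_integrable (r : ℕ) (lam : ℝ) :
    Integrable (fun Z => LR r lam Z ^ 2) (gam (Finset (Fin n))) := by
  simp only [LR_sq]
  exact integrable_finsetSum _ fun x _ => integrable_finsetSum _ fun y _ =>
    (integrable_ew_mul _ _).const_mul _

theorem LR_sq_int (r : ℕ) (lam : ℝ) : ∫ Z, LR r lam Z ^ 2 ∂(gam (Finset (Fin n))) =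
    ∑ x : Fin n → Bool, ww x * ∑ y : Fin n → Bool, ww y *
      Real.exp (∑ S, aa r lam x S * aa r lam y S) := by
  simp only [LR_sq]
  rw [integral_finsetSum _ (fun x _ => integrable_finsetSum _ fun y _ =>
    (integrable_ew_mul _ _).const_mul _)]
  refine Finset.sum_congr rfl fun x _ => ?_
  rw [integral_finsetSum _ (fun y _ => (integrable_ew_mul _ _).const_mul _), Finset.mul_sum]
  refine Finset.sum_congr rfl fun y _ => ?_
  rw [integral_const_mul, int_ew_mul]
  ring

theorem pair_aux (z : Fin n → ℝ) (t : Finset (Fin n)) :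
    2 * ∑ S ∈ powersetCard 2 t, ∏ i ∈ S, z i = (∑ i ∈ t, z i) ^ 2 - ∑ i ∈ t, z i ^ 2 := by
  induction t using Finset.induction_on with
  | empty =>
    rw [Finset.powersetCard_eq_empty.mpr (by simp)]
    simp
  | insert a s ha ih =>
    have h1 : Disjoint (powersetCard 2 s) ((powersetCard 1 s).image (insert a)) := by
      rw [Finset.disjoint_left]
      intro S hS hS'
      rw [mem_powersetCard] at hS
      rw [mem_image] at hS'
      obtain ⟨T, _, rfl⟩ := hS'
      exact ha (hS.1 (mem_insert_self a T))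
    have h2 : Set.InjOn (insert a) ((powersetCard 1 s : Finset (Finset (Fin n))) :
        Set (Finset (Fin n))) := by
      intro T hT T' hT' h
      rw [mem_coe, mem_powersetCard] at hT hT'
      have e1 : a ∉ T := fun h => ha (hT.1 h)
      have e2 : a ∉ T' := fun h => ha (hT'.1 h)
      rw [← Finset.erase_insert e1, ← Finset.erase_insert e2, h]
    rw [Finset.powersetCard_succ_insert ha, Finset.sum_union h1, Finset.sum_image h2, mul_add, ih,
      Finset.sum_insert ha, Finset.sum_insert ha]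
    have h3 : ∑ T ∈ powersetCard 1 s, ∏ i ∈ insert a T, z i = z a * ∑ i ∈ s, z i := by
      rw [Finset.powersetCard_one, Finset.sum_map, Finset.mul_sum]
      refine Finset.sum_congr rfl fun i hi => ?_
      have : a ∉ ({i} : Finset (Fin n)) := by
        rw [mem_singleton]; rintro rfl; exact ha hi
      simp only [Function.Embedding.coeFn_mk]
      rw [Finset.prod_insert this, Finset.prod_singleton]
    rw [h3]
    ring

/-- pair sums -/
theorem pair_sum (z : Fin n → ℝ) (hz : ∀ i, z i ^ 2 = 1) :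
    2 * ∑ S : Finset (Fin n), (if S.card = 2 then ∏ i ∈ S, z i else 0) = (∑ i, z i) ^ 2 - n := by
  have h1 := pair_aux z univ
  simp only [hz, Finset.sum_const, Finset.card_univ, Fintype.card_fin, nsmul_eq_mul,
    mul_one] at h1
  rw [← h1, ← Finset.sum_filter]
  congr 1
  refine Finset.sum_congr ?_ fun _ _ => rfl
  ext S
  simp

theorem LR_sq_le (lam : ℝ) (hlam : lam ^ 2 * n ≤ 1 / 8) :
    ∫ Z, LR 2 lam Z ^ 2 ∂(gam (Finset (Fin n))) ≤ 18 := by
  rw [LR_sq_int]
  have h1 : ∀ x : Fin n → Bool, ∑ y : Fin n → Bool, ww y *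
      Real.exp (∑ S, aa 2 lam x S * aa 2 lam y S) ≤ 18 := by
    intro x
    have h2 : ∀ y : Fin n → Bool, ∑ S, aa 2 lam x S * aa 2 lam y S =
        lam ^ 2 / 2 * ((∑ i, (2 * sg (x i)) * yv (1 / 2) (y i)) ^ 2 - n) := by
      intro y
      have h3 := pair_sum (fun i => sg (x i) * sg (y i)) (fun i => by
        rw [mul_pow, sg_sq, sg_sq, one_mul])
      have h4 : ∑ i, (2 * sg (x i)) * yv (1 / 2) (y i) = ∑ i, sg (x i) * sg (y i) := by
        refine Finset.sum_congr rfl fun i _ => ?_
        unfold sg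
        ring
      rw [h4, ← h3, ← mul_assoc, Finset.mul_sum]
      refine Finset.sum_congr rfl fun S _ => ?_
      unfold aa
      split_ifs with h
      · unfold chi
        rw [Finset.prod_mul_distrib]
        ring
      · ring
    have h5 := H497R3.Erg.sq_moment (n := n) (u := 1 / 2) (by norm_num) (by norm_num)
      (fun i => 2 * sg (x i)) (lam ^ 2 / 2) (by positivity) (by
        have : ∀ i, (2 * sg (x i)) ^ 2 = 4 := by
          intro i; rw [mul_pow, sg_sq]; norm_num
        simp only [this, Finset.sum_const, Finset.card_univ, Fintype.card_fin, nsmul_eq_mul]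
        linarith)
    refine le_trans ?_ h5
    unfold Ex
    refine Finset.sum_le_sum fun y _ => ?_
    apply mul_le_mul_of_nonneg_left _ (ww_nonneg y)
    apply Real.exp_le_exp.mpr
    rw [h2]
    have : 0 ≤ lam ^ 2 / 2 * (n : ℝ) := by positivity
    linarith
  calc ∑ x : Fin n → Bool, ww x * ∑ y : Fin n → Bool, ww y *
      Real.exp (∑ S, aa 2 lam x S * aa 2 lam y S) ≤ ∑ x : Fin n → Bool, ww x * 18 :=
        Finset.sum_le_sum fun x _ => mul_le_mul_of_nonneg_left (h1 x) (ww_nonneg x)
    _ = 18 := by rw [← Finset.sum_mul, ww_sum, one_mul]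

/-- variance bound from the exponential moments -/
theorem var_le {V : Type} [Fintype V] (f : (V → ℝ) → ℝ) (B : ℝ) (hB : 0 < B) (hf : Lip B f) :
    Integrable (fun Z => (f Z - ∫ y, f y ∂(gam V)) ^ 2) (gam V) ∧
      ∫ Z, (f Z - ∫ y, f y ∂(gam V)) ^ 2 ∂(gam V) ≤ 4 * B ^ 2 := by
  obtain ⟨h1, h2, h3⟩ := H320R2.LD.prove_MGF V f B hB hf
  set m := ∫ y, f y ∂(gam V) with hm
  have hi : ∀ t : ℝ, Integrable (fun x => Real.exp (t * (f x - m))) (gam V) := by
    intro t
    have : (fun x => Real.exp (t * (f x - m))) = fun x => Real.exp (-(t * m)) * Real.exp (t * f x) := by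
      funext x
      rw [← Real.exp_add]
      congr 1
      ring
    rw [this]
    exact (h2 t).const_mul _
  have key : ∀ u : ℝ, u ^ 2 + 2 ≤ Real.exp u + Real.exp (-u) := by
    intro u
    have h4 : (u / 2) ^ 2 ≤ Real.sinh (u / 2) ^ 2 := by
      rcases le_total 0 (u / 2) with h | h
      · have := Real.self_le_sinh_iff.mpr h
        nlinarith
      · have := Real.sinh_le_self_iff.mpr h
        nlinarith
    have h5 : Real.cosh u = 2 * Real.sinh (u / 2) ^ 2 + 1 := by
      have h6 := Real.cosh_two_mul (u / 2)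
      rw [Real.cosh_sq, show 2 * (u / 2) = u by ring] at h6
      linarith
    rw [Real.cosh_eq] at h5
    linarith
  have hpt : ∀ x, (f x - m) ^ 2 ≤ B ^ 2 * (Real.exp (B⁻¹ * (f x - m)) +
      Real.exp ((-B⁻¹) * (f x - m)) - 2) := by
    intro x
    have h5 := key (B⁻¹ * (f x - m))
    have h6 : (-B⁻¹) * (f x - m) = -(B⁻¹ * (f x - m)) := by ring
    rw [h6]
    have h7 : (f x - m) ^ 2 = B ^ 2 * (B⁻¹ * (f x - m)) ^ 2 := by
      field_simp
    rw [h7]
    apply mul_le_mul_of_nonneg_left _ (by positivity)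
    linarith
  have hI : Integrable (fun x => B ^ 2 * (Real.exp (B⁻¹ * (f x - m)) +
      Real.exp ((-B⁻¹) * (f x - m)) - 2)) (gam V) :=
    (((hi _).add (hi _)).sub (integrable_const _)).const_mul _
  have hmeas : AEStronglyMeasurable (fun x => (f x - m) ^ 2) (gam V) :=
    ((h1.aestronglyMeasurable.sub aestronglyMeasurable_const).pow 2)
  have hint : Integrable (fun Z => (f Z - m) ^ 2) (gam V) := by
    refine hI.mono' hmeas (Filter.Eventually.of_forall fun x => ?_)
    rw [Real.norm_eq_abs, abs_of_nonneg (sq_nonneg _)]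
    exact hpt x
  refine ⟨hint, ?_⟩
  calc ∫ Z, (f Z - m) ^ 2 ∂(gam V) ≤ ∫ x, B ^ 2 * (Real.exp (B⁻¹ * (f x - m)) +
      Real.exp ((-B⁻¹) * (f x - m)) - 2) ∂(gam V) := integral_mono hint hI hpt
    _ = B ^ 2 * (∫ x, Real.exp (B⁻¹ * (f x - m)) ∂(gam V) +
          ∫ x, Real.exp ((-B⁻¹) * (f x - m)) ∂(gam V) - 2) := by
        have b1 : Integrable (fun x => Real.exp (B⁻¹ * (f x - m)) +
          Real.exp ((-B⁻¹) * (f x - m))) (gam V) := (hi _).add (hi _)
        rw [integral_const_mul, integral_sub b1 (integrable_const _), integral_add (hi _) (hi _)]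
        simp
    _ ≤ B ^ 2 * (Real.exp 1 + Real.exp 1 - 2) := by
        have e1 := h3 B⁻¹
        have e2 := h3 (-B⁻¹)
        have e3 : (B⁻¹) ^ 2 * B ^ 2 = 1 := by field_simp
        have e4 : (-B⁻¹) ^ 2 * B ^ 2 = 1 := by field_simp
        rw [e3] at e1
        rw [e4] at e2
        apply mul_le_mul_of_nonneg_left _ (by positivity)
        linarith
    _ ≤ 4 * B ^ 2 := by
        have := Real.exp_one_lt_d9
        nlinarith [sq_nonneg B]

theorem mean_upper (ℓ : ℕ) (hℓ : ℓ ≤ n) (hℓ1 : 1 ≤ ℓ) (lam : ℝ) (hlam : lam ^ 2 * n ≤ 1 / 8) :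
    ∫ Z, top 2 ℓ lam Z ∂(gam (Finset (Fin n))) ≤
      ∫ Z, top 2 ℓ 0 Z ∂(gam (Finset (Fin n))) + (4 * (ℓ : ℝ) ^ 2 + 9) := by
  set f : (Finset (Fin n) → ℝ) → ℝ := fun Z => top 2 ℓ 0 Z with hf
  set m := ∫ Z, f Z ∂(gam (Finset (Fin n))) with hm
  have hL := lip_top (n := n) 1 ℓ hℓ 0
  have hℓ' : (1 : ℝ) ≤ ℓ := by exact_mod_cast hℓ1
  have hB : (0 : ℝ) < Real.sqrt ((2 * 1).choose 1 : ℝ) * (ℓ.choose 1 : ℝ) := by
    simp only [Nat.choose_one_right]
    push_cast
    positivity
  obtain ⟨hv1, hv2⟩ := var_le f _ hB hL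
  have hB2 : (Real.sqrt ((2 * 1).choose 1 : ℝ) * (ℓ.choose 1 : ℝ)) ^ 2 = 2 * (ℓ : ℝ) ^ 2 := by
    rw [mul_pow, Real.sq_sqrt (Nat.cast_nonneg _)]
    simp
  rw [hB2] at hv2
  have hfi : Integrable f (gam (Finset (Fin n))) := integrable_top 2 ℓ hℓ 0
  have hL1 := LR_integrable (n := n) 2 lam
  have hL2 := LR_sq_integrable (n := n) 2 lam
  -- integrability of f * LR
  have hprod : ∀ a : Finset (Fin n) → ℝ, Integrable (fun Z => f Z * ew a Z) (gam (Finset (Fin n))) := by
    intro a
    have g1 : Integrable (fun Z => (f Z - m) * ew a Z) (gam (Finset (Fin n))) := by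
      have g2 : Integrable (fun Z => (f Z - m) ^ 2 / 2 + (ew a Z * ew a Z) / 2)
          (gam (Finset (Fin n))) := (hv1.div_const 2).add ((integrable_ew_mul a a).div_const 2)
      refine g2.mono' ((hfi.aestronglyMeasurable.sub aestronglyMeasurable_const).mul
        (integrable_ew a).aestronglyMeasurable) (Filter.Eventually.of_forall fun Z => ?_)
      rw [Real.norm_eq_abs, abs_le]
      constructor <;> nlinarith [sq_nonneg (f Z - m + ew a Z), sq_nonneg (f Z - m - ew a Z)]
    have g3 := g1.add ((integrable_ew a).const_mul m)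
    refine g3.congr (Filter.Eventually.of_forall fun Z => ?_)
    simp only [Pi.add_apply]
    ring
  have e1 : ∫ Z, top 2 ℓ lam Z ∂(gam (Finset (Fin n))) =
      ∫ Z, f Z * LR 2 lam Z ∂(gam (Finset (Fin n))) := by
    have e2 : (fun Z => f Z * LR 2 lam Z) = fun Z => ∑ x : Fin n → Bool,
        ww x * (f Z * ew (aa 2 lam x) Z) := by
      funext Z
      unfold LR
      rw [Finset.mul_sum]
      exact Finset.sum_congr rfl fun x _ => by ring
    rw [e2, integral_finsetSum _ (fun x _ => (hprod _).const_mul _)]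
    simp only [integral_const_mul]
    have e3 : ∀ x : Fin n → Bool, ∫ Z, f Z * ew (aa 2 lam x) Z ∂(gam (Finset (Fin n))) =
        ∫ Z, top 2 ℓ lam Z ∂(gam (Finset (Fin n))) := fun x => (mean_gauge 2 ℓ hℓ lam x).symm
    simp only [e3]
    rw [← Finset.sum_mul, ww_sum, one_mul]
  have hfL : Integrable (fun Z => f Z * LR 2 lam Z) (gam (Finset (Fin n))) := by
    have e2 : (fun Z => f Z * LR 2 lam Z) = fun Z => ∑ x : Fin n → Bool,
        ww x * (f Z * ew (aa 2 lam x) Z) := by
      funext Z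
      unfold LR
      rw [Finset.mul_sum]
      exact Finset.sum_congr rfl fun x _ => by ring
    rw [e2]
    exact integrable_finsetSum _ (fun x _ => (hprod _).const_mul _)
  rw [e1]
  have h18 := LR_sq_le (n := n) lam hlam
  have hpt : ∀ Z, f Z * LR 2 lam Z ≤ m * LR 2 lam Z + f Z - m +
      ((f Z - m) ^ 2 / 2 + (LR 2 lam Z ^ 2 / 2 - LR 2 lam Z + 1 / 2)) := by
    intro Z
    nlinarith [sq_nonneg (f Z - m - (LR 2 lam Z - 1))]
  have hIR : Integrable (fun Z => m * LR 2 lam Z + f Z - m +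
      ((f Z - m) ^ 2 / 2 + (LR 2 lam Z ^ 2 / 2 - LR 2 lam Z + 1 / 2)))
      (gam (Finset (Fin n))) :=
    (((hL1.const_mul m).add hfi).sub (integrable_const m)).add
      ((hv1.div_const 2).add (((hL2.div_const 2).sub hL1).add (integrable_const _)))
  refine (integral_mono hfL hIR hpt).trans ?_
  have c1 : Integrable (fun Z => m * LR 2 lam Z) (gam (Finset (Fin n))) := hL1.const_mul m
  have c2 : Integrable (fun Z => m * LR 2 lam Z + f Z) (gam (Finset (Fin n))) := c1.add hfi
  have c3 : Integrable (fun Z => m * LR 2 lam Z + f Z - m) (gam (Finset (Fin n))) :=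
    c2.sub (integrable_const m)
  have c4 : Integrable (fun Z => (f Z - m) ^ 2 / 2) (gam (Finset (Fin n))) := hv1.div_const 2
  have c5 : Integrable (fun Z => LR 2 lam Z ^ 2 / 2) (gam (Finset (Fin n))) := hL2.div_const 2
  have c6 : Integrable (fun Z => LR 2 lam Z ^ 2 / 2 - LR 2 lam Z) (gam (Finset (Fin n))) :=
    c5.sub hL1
  have c7 : Integrable (fun Z => LR 2 lam Z ^ 2 / 2 - LR 2 lam Z + 1 / 2)
    (gam (Finset (Fin n))) := c6.add (integrable_const _)
  have c8 : Integrable (fun Z => (f Z - m) ^ 2 / 2 + (LR 2 lam Z ^ 2 / 2 - LR 2 lam Z + 1 / 2))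
    (gam (Finset (Fin n))) := c4.add c7
  rw [integral_add c3 c8, integral_sub c2 (integrable_const m), integral_add c1 hfi,
    integral_add c4 c7, integral_add c6 (integrable_const _),
    integral_sub c5 hL1, integral_const_mul, integral_div, integral_div, LR_int]
  simp only [integral_const, probReal_univ, smul_eq_mul, one_mul, mul_one]
  rw [← hm]
  linarith

end Pool.Agent.TH966.Kik
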