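import Mathlib
import Pool.Agent.TH966.Kik.Gauge

/-!
# `r = 2`: no separation below the threshold of the spiked Wigner matrix
-/

set_option autoImplicit false
set_option linter.unusedVariables false
set_option maxHeartbeats 1000000

open MeasureTheory ProbabilityTheory Finset
open Pool.Agent.H320R2.LD (gam nsq nrm Lip)

namespace Pool.Agent.TH966.Kik

variable {n : ℕ}

/-- lower bound on the mean for `r = 2` -/
theorem mean_lower2 (ℓ : ℕ) (hℓ1 : 1 ≤ ℓ) (hℓ : ℓ < n) :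
    m1 * Real.sqrt ((n : ℝ) - ℓ) ≤ ∫ Z, top 2 ℓ 0 Z ∂(gam (Finset (Fin n))) := by
  classical
  obtain ⟨K, _, hK⟩ := Finset.exists_subset_card_eq
    (s := (Finset.univ : Finset (Fin n))) (n := ℓ) (by simpa using hℓ.le)
  obtain ⟨a, ha⟩ : K.Nonempty := by
    rw [← Finset.card_pos, hK]; exact hℓ1
  have hcard : ∀ b ∈ Kᶜ, (insert b (K.erase a)).card = ℓ := by
    intro b hb
    rw [mem_compl] at hb
    rw [card_insert_of_notMem (fun h => hb (mem_of_mem_erase h)), card_erase_of_mem ha, hK]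
    omega
  set T : Finset (Ix n ℓ) := Kᶜ.attach.image (fun b => ⟨insert b.1 (K.erase a), hcard b.1 b.2⟩)
    with hT
  have hinj : Function.Injective (fun b : {b // b ∈ Kᶜ} =>
      (⟨insert b.1 (K.erase a), hcard b.1 b.2⟩ : Ix n ℓ)) := by
    rintro ⟨b, hb⟩ ⟨c, hc⟩ h
    simp only [Subtype.mk.injEq] at h ⊢
    rw [mem_compl] at hb hc
    have : b ∈ insert c (K.erase a) := by rw [← h]; exact mem_insert_self _ _
    rw [mem_insert] at this
    rcases this with h1 | h1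
    · exact h1
    · exact absurd (mem_of_mem_erase h1) hb
  have hTc : T.card = n - ℓ := by
    rw [hT, card_image_of_injective _ hinj, card_attach, card_compl, hK, Fintype.card_fin]
  have hTn : T.Nonempty := by
    rw [← Finset.card_pos, hTc]; omega
  have h2 : ∀ J ∈ T, (symmDiff (⟨K, hK⟩ : Ix n ℓ).1 J.1).card = 2 := by
    intro J hJ
    rw [hT, mem_image] at hJ
    obtain ⟨⟨b, hb⟩, _, rfl⟩ := hJ
    rw [mem_compl] at hb
    have : symmDiff K (insert b (K.erase a)) = {a, b} := by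
      ext x
      simp only [Finset.mem_symmDiff, mem_insert, mem_erase, mem_singleton]
      by_cases h1 : x = a
      · subst h1
        have : x ≠ b := by rintro rfl; exact hb ha
        tauto
      · by_cases h2 : x = b
        · subst h2
          tauto
        · tauto
    show (symmDiff K (insert b (K.erase a))).card = 2
    rw [this, card_pair]
    rintro rfl
    exact hb ha
  have := mean_lower 2 ℓ hℓ.le ⟨K, hK⟩ T hTn (by norm_num) h2
  rw [hTc, Nat.cast_sub hℓ.le] at this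
  exact this

/-- for `r = 2` and `μ² ≤ 1/8` the ratio tends to at most `1` -/
theorem ratio2 (ℓ : ℕ) (hℓ1 : 1 ≤ ℓ) (mu : ℝ) (hmu : mu ^ 2 ≤ 1 / 8) (ε : ℝ) (hε : 0 < ε) :
    ∀ᶠ n : ℕ in Filter.atTop,
      (∫ Z, top 2 ℓ (mu * (n : ℝ) ^ (-((2 : ℕ) : ℝ) / 4)) Z ∂(gam (Finset (Fin n)))) /
        (∫ Z, top 2 ℓ 0 Z ∂(gam (Finset (Fin n)))) < 1 + ε := by
  have h1 : Filter.Tendsto (fun n : ℕ => (n : ℝ)) Filter.atTop Filter.atTop :=
    tendsto_natCast_atTop_atTop
  set C : ℝ := (4 * (ℓ : ℝ) ^ 2 + 9) / m1 with hC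
  have hm1 := m1_pos
  have hCpos : 0 < C := by positivity
  have h2 := h1.eventually_gt_atTop ((ℓ : ℝ) + (C / ε) ^ 2)
  filter_upwards [h2, Filter.eventually_gt_atTop ℓ] with n hn hn2
  have hn0 : (0 : ℝ) < n := by
    have : 0 < n := by omega
    exact_mod_cast this
  have hlam : (mu * (n : ℝ) ^ (-((2 : ℕ) : ℝ) / 4)) ^ 2 * n ≤ 1 / 8 := by
    have e1 : ((n : ℝ) ^ (-((2 : ℕ) : ℝ) / 4)) ^ 2 = (n : ℝ)⁻¹ := by
      rw [← Real.rpow_natCast, ← Real.rpow_mul hn0.le]
      have : (-((2 : ℕ) : ℝ) / 4) * ((2 : ℕ) : ℝ) = -1 := by push_cast; ring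
      rw [this, Real.rpow_neg_one]
    rw [mul_pow, e1, mul_assoc, inv_mul_cancel₀ hn0.ne', mul_one]
    exact hmu
  have h3 := mean_upper ℓ hn2.le hℓ1 _ hlam
  have h4 := mean_lower2 ℓ hℓ1 hn2
  have h5 : C / ε < Real.sqrt ((n : ℝ) - ℓ) := by
    apply Real.lt_sqrt_of_sq_lt
    linarith
  have h6 : 0 < ∫ Z, top 2 ℓ 0 Z ∂(gam (Finset (Fin n))) := by
    refine lt_of_lt_of_le ?_ h4
    have : 0 < C / ε := by positivity
    exact mul_pos hm1 (this.trans h5)
  rw [div_lt_iff₀ h6]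
  have h7 : 4 * (ℓ : ℝ) ^ 2 + 9 < ε * ∫ Z, top 2 ℓ 0 Z ∂(gam (Finset (Fin n))) := by
    calc 4 * (ℓ : ℝ) ^ 2 + 9 = ε * (m1 * (C / ε)) := by
          rw [hC]; field_simp
      _ < ε * (m1 * Real.sqrt ((n : ℝ) - ℓ)) := by
          apply mul_lt_mul_of_pos_left _ hε
          exact mul_lt_mul_of_pos_left h5 hm1
      _ ≤ _ := mul_le_mul_of_nonneg_left h4 hε.le
  linarith

end Pool.Agent.TH966.Kik
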